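import Mathlib

/-!
# Hom-Ext quivers of exceptional collections

Definitions for MP_2a1499.  Modules over the path algebra of a finite acyclic quiver `Q` are
represented by functors from the path category of `Q` to vector spaces.
-/

namespace Q1.HomExt

open CategoryTheory Abelian

/-- Representations of the quiver `Q` over `k` (that is, modules over the path algebra `kQ`). -/
abbrev QRep (k : Type) [Field k] (Q : Type) [Quiver.{0} Q] : Type 1 :=
  Paths Q ⥤ ModuleCat.{0} k

instance hasExtQRep (k : Type) [Field k] (Q : Type) [Quiver.{0} Q] : HasExt.{1} (QRep k Q) :=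
  HasExt.standard _

/-- The quiver `Q` has finitely many vertices and arrows and no oriented cycle. -/
structure IsFiniteAcyclic (Q : Type) [Quiver.{0} Q] : Prop where
  vertices : Finite Q
  arrows : ∀ a b : Q, Finite (a ⟶ b)
  acyclic : ∀ (a : Q) (p : Quiver.Path a a), p.length = 0

variable {k : Type} [Field k] {Q : Type} [Quiver.{0} Q]

/-- All spaces of the representation are finite-dimensional. -/
def IsFinDim (M : QRep k Q) : Prop := ∀ v : Paths Q, Module.Finite k (M.obj v)

/-- `M` is a finite-dimensional indecomposable module with `Ext^1(M, M) = 0`. -/
structure IsExceptional (M : QRep k Q) : Prop where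
  finDim : IsFinDim M
  indecomposable : Indecomposable M
  rigid : ∀ e : Ext M M 1, e = 0

/-- The family `X` (indexed by a finite set) is an exceptional collection: its members are
exceptional and some ordering of the members is an exceptional sequence, that is,
`Hom(X_i, X_j) = 0 = Ext^1(X_i, X_j)` whenever `X_j` comes before `X_i`. -/
structure IsExceptionalCollection {ι : Type} (X : ι → QRep k Q) : Prop where
  finite : Finite ι
  exceptional : ∀ i, IsExceptional (X i)
  ordering : ∃ pos : ι → ℕ, Function.Injective pos ∧ ∀ i j, pos j < pos i →
    (∀ f : X i ⟶ X j, f = 0) ∧ (∀ e : Ext (X i) (X j) 1, e = 0)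

/-- Arrows between the members of the collection: the arrows of the quiver `ι` come with a degree
(`0` for a morphism, `1` for an extension) and with a class in `Hom` or `Ext^1`. -/
structure ArrowData {ι : Type} [Quiver.{0} ι] (X : ι → QRep k Q) where
  /-- degree of an arrow -/
  deg : ∀ {i j : ι}, (i ⟶ j) → ℕ
  deg_le : ∀ {i j : ι} (a : i ⟶ j), deg a ≤ 1
  /-- the morphism or extension given by an arrow -/
  cls : ∀ {i j : ι} (a : i ⟶ j), Ext (X i) (X j) (deg a)

namespace ArrowData

variable {ι : Type} [Quiver.{0} ι] {X : ι → QRep k Q} (D : ArrowData X)

/-- The degree of a path: its number of extension arrows. -/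
def pathDeg {i : ι} : {j : ι} → Quiver.Path i j → ℕ
  | _, Quiver.Path.nil => 0
  | _, Quiver.Path.cons p a => pathDeg p + D.deg a

/-- The composite of the morphisms and extensions along a path. -/
noncomputable def eval {i : ι} : {j : ι} → (p : Quiver.Path i j) → Ext (X i) (X j) (D.pathDeg p)
  | _, Quiver.Path.nil => Ext.mk₀ (𝟙 (X i))
  | _, Quiver.Path.cons p a => (eval p).comp (D.cls a) rfl

/-- The composite of a path as an element of `Ext^n`; it is zero if the path has another
degree. -/
noncomputable def evalPath (n : ℕ) {i j : ι} (p : Quiver.Path i j) : Ext (X i) (X j) n :=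
  if h : D.pathDeg p = n then h ▸ D.eval p else 0

/-- Evaluation of linear combinations of paths in `Ext^n`. -/
noncomputable def evalIn (n : ℕ) (i j : ι) :
    (Quiver.Path i j →₀ k) →ₗ[k] Ext (X i) (X j) n :=
  Finsupp.linearCombination k (fun p => D.evalPath n p)

/-- The relations from `i` to `j`: linear combinations of paths whose morphism part and whose
extension part are zero (paths with two or more extension arrows are zero). -/
noncomputable def rel (i j : ι) : Submodule k (Quiver.Path i j →₀ k) :=
  LinearMap.ker (D.evalIn 0 i j) ⊓ LinearMap.ker (D.evalIn 1 i j)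

/-- The quiver `ι` with the relations `rel` is the Hom-Ext quiver of the collection: all morphisms
and extensions are linear combinations of composites of arrows, and no relation involves a path of
length at most one (so the arrows form bases of the morphisms and extensions modulo those that
factor). -/
structure IsHomExtQuiver : Prop where
  surjective : ∀ n ≤ 1, ∀ i j : ι, Function.Surjective (D.evalIn n i j)
  admissible : ∀ i j : ι, ∀ f ∈ D.rel i j, ∀ p : Quiver.Path i j, p.length ≤ 1 → f p = 0

/-- The ideal of the path algebra generated by a set `S` of paths, in the component `i, j`. -/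
noncomputable def pathIdeal (k : Type) [Field k] {ι : Type} [Quiver.{0} ι]
    (S : ∀ i j : ι, Set (Quiver.Path i j)) (i j : ι) : Submodule k (Quiver.Path i j →₀ k) :=
  Submodule.span k {f | ∃ (a b : ι) (p : Quiver.Path i a) (s : Quiver.Path a b)
    (q : Quiver.Path b j), s ∈ S a b ∧ f = Finsupp.single (p.comp (s.comp q)) 1}

/-- The ideal of relations is generated by monomial relations (paths of length at least two). -/
def IsMonomial : Prop :=
  ∃ S : ∀ i j : ι, Set (Quiver.Path i j), (∀ i j, ∀ s ∈ S i j, 2 ≤ s.length) ∧
    ∀ i j, D.rel i j = pathIdeal k S i j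

end ArrowData

end Q1.HomExt
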