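import Mathlib
import Pool.Agent.Q1.HomExt.Defs

/-!
# Thin representations of the quiver of type `D_4` with central source
-/

namespace Q1.HomExt.D4

open CategoryTheory Abelian Limits

/-- Vertices: the centre and three leaves. -/
inductive V : Type
  | c : V
  | l (i : Fin 3) : V
deriving DecidableEq

/-- Arrows: from the centre to each leaf. -/
inductive Arr : V → V → Type
  | a (i : Fin 3) : Arr V.c (V.l i)

instance : Quiver.{0} V := ⟨Arr⟩

/-- the arrow to the leaf `i` -/
def arr (i : Fin 3) : (V.c : V) ⟶ V.l i := Arr.a i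

/-- case analysis on arrows -/
lemma arrow_rec {P : ∀ {v w : V}, (v ⟶ w) → Prop} (h : ∀ i, P (arr i)) {v w : V} (a : v ⟶ w) :
    P a := by
  change Arr v w at a
  cases a with
  | a i => exact h i

lemma finiteAcyclic : IsFiniteAcyclic V where
  vertices := Finite.of_surjective (fun o : Option (Fin 3) => match o with
    | none => V.c
    | some i => V.l i) (by
      rintro (_ | i)
      · exact ⟨none, rfl⟩
      · exact ⟨some i, rfl⟩)
  arrows := by
    intro a b
    refine Finite.of_injective (β := Fin 3) (fun x => match x with | Arr.a i => i) ?_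
    intro x y h
    change Arr a b at x
    change Arr a b at y
    cases x
    cases y
    rfl
  acyclic := by
    intro a p
    have key : ∀ (b : V) (p : Quiver.Path a b), p.length = 0 ∨ (a = V.c ∧ b ≠ V.c) := by
      intro b p
      induction p with
      | nil => exact Or.inl rfl
      | cons q e ih =>
        right
        change Arr _ _ at e
        cases e with
        | a i =>
          rcases ih with h | h
          · cases q with
            | nil => exact ⟨rfl, by simp⟩
            | cons q e' => simp at h
          · exact absurd rfl h.2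
    rcases key a p with h | h
    · exact h
    · exact absurd h.1 h.2

variable {k : Type} [Field k]

/-- naturality only needs to be checked on arrows -/
def mkHom {Q : Type} [Quiver.{0} Q] {M N : QRep k Q} (f : ∀ v : Paths Q, M.obj v ⟶ N.obj v)
    (h : ∀ (v w : Q) (a : v ⟶ w), M.map ((Paths.of Q).map a) ≫ f ((Paths.of Q).obj w) =
      f ((Paths.of Q).obj v) ≫ N.map ((Paths.of Q).map a)) : M ⟶ N where
  app := f
  naturality := by
    intro v w p
    induction p using Paths.induction with
    | id => simp
    | comp p a ih =>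
      rw [Functor.map_comp, Functor.map_comp, Category.assoc, h, ← Category.assoc, ih,
        Category.assoc]

/-- The line (or zero space) at a vertex. -/
def Sub (k : Type) [Field k] (S : V → Bool) (v : V) : Submodule k k where
  carrier := {x | S v = false → x = 0}
  zero_mem' := fun _ => rfl
  add_mem' := by
    intro x y hx hy h
    rw [hx h, hy h, add_zero]
  smul_mem' := by
    intro c x hx h
    rw [hx h, smul_zero]

lemma mem_Sub {S : V → Bool} {v : V} {x : k} : x ∈ Sub k S v ↔ (S v = false → x = 0) := Iff.rfl

/-- cut off outside the support of the target -/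
def cut (S T : V → Bool) (v w : V) : Sub k S v →ₗ[k] Sub k T w where
  toFun x := ⟨if T w then x.1 else 0, by
    intro hw
    simp [hw]⟩
  map_add' x y := by
    apply Subtype.ext
    by_cases h : T w <;> simp [h]
  map_smul' c x := by
    apply Subtype.ext
    by_cases h : T w <;> simp [h]

lemma cut_apply (S T : V → Bool) (v w : V) (x : Sub k S v) :
    ((cut S T v w x : Sub k T w) : k) = if T w then x.1 else 0 := rfl

/-- The thin prefunctor. -/
def pre (k : Type) [Field k] (S : V → Bool) : V ⥤q ModuleCat.{0} k where
  obj v := ModuleCat.of k (Sub k S v)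
  map {v w} _ := ModuleCat.ofHom (cut S S v w)

/-- The thin representation with support `S`. -/
def M (k : Type) [Field k] (S : V → Bool) : QRep k V := Paths.lift (pre k S)

lemma M_obj (S : V → Bool) (v : V) : (M k S).obj v = ModuleCat.of k (Sub k S v) := rfl

lemma M_map (S : V → Bool) {v w : V} (a : v ⟶ w) :
    (M k S).map ((Paths.of V).map a) = ModuleCat.ofHom (cut S S v w) := by
  exact Paths.lift_toPath (pre k S) a

lemma finDim (S : V → Bool) : IsFinDim (M k S) := by
  intro v
  change Module.Finite k (Sub k S v)
  infer_instance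

/-- Compatibility of supports. -/
def Compat (S T : V → Bool) : Prop :=
  S V.c = true → ∀ i, T (V.l i) = true → S (V.l i) = T V.c

/-- a morphism of thin representations from linear maps commuting with the arrows -/
def mk {S T : V → Bool} (f : ∀ v : V, Sub k S v →ₗ[k] Sub k T v)
    (h : ∀ i, f (V.l i) ∘ₗ cut S S V.c (V.l i) = cut T T V.c (V.l i) ∘ₗ f V.c) : M k S ⟶ M k T :=
  mkHom (fun v => ModuleCat.ofHom (f v)) (by
    intro v w a
    rw [M_map, M_map]
    change Arr v w at a
    obtain ⟨i⟩ := a
    have e : ModuleCat.ofHom (f (V.l i) ∘ₗ cut S S V.c (V.l i)) =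
      ModuleCat.ofHom (cut T T V.c (V.l i) ∘ₗ f V.c) := by rw [h]
    exact e)

/-- the component of a morphism -/
def cmp {S T : V → Bool} (f : M k S ⟶ M k T) (v : V) : Sub k S v →ₗ[k] Sub k T v :=
  (f.app v).hom

lemma cmp_mk {S T : V → Bool} (f : ∀ v : V, Sub k S v →ₗ[k] Sub k T v) (h) (v : V) :
    cmp (mk f h) v = f v := rfl

lemma cmp_ext {S T : V → Bool} {f g : M k S ⟶ M k T} (h : ∀ v, cmp f v = cmp g v) : f = g := by
  apply NatTrans.ext
  funext v
  apply ModuleCat.hom_ext
  exact h v

lemma cmp_nat {S T : V → Bool} (f : M k S ⟶ M k T) (i : Fin 3) :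
    cmp f (V.l i) ∘ₗ cut S S V.c (V.l i) = cut T T V.c (V.l i) ∘ₗ cmp f V.c := by
  have h := f.naturality ((Paths.of V).map (arr i))
  rw [M_map, M_map] at h
  exact congrArg ModuleCat.Hom.hom h

lemma cmp_smul {S T : V → Bool} (a : k) (f : M k S ⟶ M k T) (v : V) :
    cmp (a • f) v = a • cmp f v := rfl

lemma cmp_zero {S T : V → Bool} (v : V) : cmp (0 : M k S ⟶ M k T) v = 0 := rfl

lemma cmp_comp {S T U : V → Bool} (f : M k S ⟶ M k T) (g : M k T ⟶ M k U) (v : V) :
    cmp (f ≫ g) v = cmp g v ∘ₗ cmp f v := rfl

lemma cmp_id (S : V → Bool) (v : V) : cmp (𝟙 (M k S)) v = LinearMap.id := rfl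

/-- The canonical morphism. -/
def can {S T : V → Bool} (h : Compat S T) : M k S ⟶ M k T :=
  mk (fun v => cut S T v v) (by
    intro i
    refine LinearMap.ext fun x => Subtype.ext ?_
    simp only [LinearMap.comp_apply, cut_apply]
    by_cases hT : T (V.l i) = true
    · rw [if_pos hT, if_pos hT]
      by_cases hS : S V.c = true
      · rw [h hS i hT]
      · have : x.1 = 0 := x.2 (by simpa using hS)
        simp [this]
    · rw [if_neg hT, if_neg hT])

/-- The vector `1` (or `0` outside the support). -/
def one (S : V → Bool) (v : V) : Sub k S v := ⟨if S v then 1 else 0, by intro h; simp [h]⟩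

lemma eq_smul_one {S : V → Bool} {v : V} (x : Sub k S v) : x = x.1 • one S v := by
  apply Subtype.ext
  by_cases h : S v = true
  · simp [one, h]
  · have : x.1 = 0 := x.2 (by simpa using h)
    simp [this]

/-- The coefficient of a morphism at a vertex. -/
def coef {S T : V → Bool} (f : M k S ⟶ M k T) (v : V) : k := (cmp f v (one S v)).1

lemma cmp_apply {S T : V → Bool} (f : M k S ⟶ M k T) (v : V) (x : Sub k S v) :
    (cmp f v x).1 = x.1 * coef f v := by
  conv_lhs => rw [eq_smul_one x]
  rw [map_smul]
  rfl

lemma coef_zero_left {S T : V → Bool} (f : M k S ⟶ M k T) {v : V} (h : S v = false) :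
    coef f v = 0 := by
  have h1 := cmp_apply f v (one S v)
  have h2 : (one (k := k) S v).1 = 0 := (one S v).2 h
  rw [h2, zero_mul] at h1
  exact h1

lemma coef_zero_right {S T : V → Bool} (f : M k S ⟶ M k T) {v : V} (h : T v = false) :
    coef f v = 0 :=
  (cmp f v (one S v)).2 h

lemma hom_ext {S T : V → Bool} {f g : M k S ⟶ M k T} (h : ∀ v, coef f v = coef g v) : f = g := by
  apply cmp_ext
  intro v
  refine LinearMap.ext fun x => Subtype.ext ?_
  rw [cmp_apply, cmp_apply, h]

/-- The naturality relation. -/
lemma coef_nat {S T : V → Bool} (f : M k S ⟶ M k T) (hc : S V.c = true) (i : Fin 3) :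
    (if S (V.l i) = true then coef f (V.l i) else 0) =
      if T (V.l i) = true then coef f V.c else 0 := by
  have h2 := congrArg (fun g : Sub k S V.c →ₗ[k] Sub k T (V.l i) => (g (one S V.c)).1)
    (cmp_nat f i)
  simp only [LinearMap.comp_apply] at h2
  rw [cmp_apply, cut_apply, cut_apply] at h2
  rw [show (cmp f V.c (one S V.c)).1 = coef f V.c from rfl] at h2
  rw [← h2]
  by_cases hS : S (V.l i) = true <;> simp [hS, one, hc]

lemma coef_can {S T : V → Bool} (h : Compat S T) (v : V) :
    coef (can (k := k) h) v = if S v = true ∧ T v = true then 1 else 0 := by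
  change ((cut S T v v (one S v) : Sub k T v) : k) = _
  rw [cut_apply]
  by_cases hS : S v = true <;> by_cases hT : T v = true <;> simp [hS, hT, one]

lemma coef_smul {S T : V → Bool} (a : k) (f : M k S ⟶ M k T) (v : V) :
    coef (a • f) v = a * coef f v := rfl

lemma coef_zero {S T : V → Bool} (v : V) : coef (0 : M k S ⟶ M k T) v = 0 := rfl

lemma coef_comp {S T U : V → Bool} (f : M k S ⟶ M k T) (g : M k T ⟶ M k U) (v : V) :
    coef (f ≫ g) v = coef f v * coef g v := by
  rw [coef, cmp_comp, LinearMap.comp_apply, cmp_apply]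
  rfl

lemma coef_id (S : V → Bool) (v : V) : coef (𝟙 (M k S)) v = if S v = true then 1 else 0 := rfl

end Q1.HomExt.D4
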