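import Mathlib
import Pool.Agent.Q1.HomExt.D4

/-!
# Vanishing of `Ext^1` between thin representations of the `D_4` quiver
-/

namespace Q1.HomExt.D4

open CategoryTheory Abelian Limits

variable {k : Type} [Field k]

/-- full support -/
def all : V → Bool := fun _ => true

/-- support consisting of the leaves in `L` -/
def sl (L : Fin 3 → Bool) : V → Bool
  | V.c => false
  | V.l i => L i

/-- the complement -/
def qs (L : Fin 3 → Bool) : V → Bool
  | V.c => true
  | V.l i => !(L i)

/-- components of a morphism out of a thin representation -/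
def outc {S : V → Bool} {N : QRep k V} (f : M k S ⟶ N) (v : V) : Sub k S v →ₗ[k] N.obj v :=
  (f.app v).hom

/-- components of a morphism into a thin representation -/
def inc {S : V → Bool} {N : QRep k V} (f : N ⟶ M k S) (v : V) : N.obj v →ₗ[k] Sub k S v :=
  (f.app v).hom

/-- action of the arrows -/
def act (N : QRep k V) (i : Fin 3) : (N.obj V.c) →ₗ[k] (N.obj (V.l i)) :=
  (N.map ((Paths.of V).map (arr i))).hom

lemma outc_nat {S : V → Bool} {N : QRep k V} (f : M k S ⟶ N) (i : Fin 3) :
    outc f (V.l i) ∘ₗ cut S S V.c (V.l i) = act N i ∘ₗ outc f V.c := by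
  have h := f.naturality ((Paths.of V).map (arr i))
  rw [M_map] at h
  exact congrArg ModuleCat.Hom.hom h

lemma inc_nat {S : V → Bool} {N : QRep k V} (f : N ⟶ M k S) (i : Fin 3) :
    inc f (V.l i) ∘ₗ act N i = cut S S V.c (V.l i) ∘ₗ inc f V.c := by
  have h := f.naturality ((Paths.of V).map (arr i))
  rw [M_map] at h
  exact congrArg ModuleCat.Hom.hom h

/-- construct a morphism out of a thin representation -/
def mkOut {S : V → Bool} {N : QRep k V} (f : ∀ v : V, Sub k S v →ₗ[k] N.obj v)
    (h : ∀ i, f (V.l i) ∘ₗ cut S S V.c (V.l i) = act N i ∘ₗ f V.c) : M k S ⟶ N :=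
  mkHom (fun v => ModuleCat.ofHom (f v)) (by
    intro v w a
    rw [M_map]
    change Arr v w at a
    obtain ⟨i⟩ := a
    have e : ModuleCat.ofHom (f (V.l i) ∘ₗ cut S S V.c (V.l i)) =
      ModuleCat.ofHom (act N i ∘ₗ f V.c) := by rw [h]
    exact e)

/-- construct a morphism into a thin representation -/
def mkIn {S : V → Bool} {N : QRep k V} (f : ∀ v : V, N.obj v →ₗ[k] Sub k S v)
    (h : ∀ i, f (V.l i) ∘ₗ act N i = cut S S V.c (V.l i) ∘ₗ f V.c) : N ⟶ M k S :=
  mkHom (fun v => ModuleCat.ofHom (f v)) (by
    intro v w a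
    rw [M_map]
    change Arr v w at a
    obtain ⟨i⟩ := a
    have e : ModuleCat.ofHom (f (V.l i) ∘ₗ act N i) =
      ModuleCat.ofHom (cut S S V.c (V.l i) ∘ₗ f V.c) := by rw [h]
    exact e)

lemma out_ext {S : V → Bool} {N : QRep k V} {f g : M k S ⟶ N} (h : ∀ v, outc f v = outc g v) :
    f = g := by
  apply NatTrans.ext
  funext v
  apply ModuleCat.hom_ext
  exact h v

lemma in_ext {S : V → Bool} {N : QRep k V} {f g : N ⟶ M k S} (h : ∀ v, inc f v = inc g v) :
    f = g := by
  apply NatTrans.ext
  funext v
  apply ModuleCat.hom_ext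
  exact h v

lemma lin_ext {S : V → Bool} {v : V} {A : Type} [AddCommGroup A] [Module k A]
    {f g : Sub k S v →ₗ[k] A} (h : f (one S v) = g (one S v)) : f = g := by
  refine LinearMap.ext fun x => ?_
  rw [eq_smul_one x, map_smul, map_smul, h]

/-- the linear map sending the basis vector to `a` -/
def toVec {S : V → Bool} {v : V} {A : Type} [AddCommGroup A] [Module k A] (a : A) :
    Sub k S v →ₗ[k] A :=
  (LinearMap.toSpanSingleton k A a) ∘ₗ (Sub k S v).subtype

lemma toVec_apply {S : V → Bool} {v : V} {A : Type} [AddCommGroup A] [Module k A] (a : A)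
    (x : Sub k S v) : toVec (S := S) (v := v) a x = x.1 • a := rfl

/-- components of a morphism -/
def gc {N N' : QRep k V} (e : N ⟶ N') (v : V) : N.obj v →ₗ[k] N'.obj v := (e.app v).hom

lemma gc_nat {N N' : QRep k V} (e : N ⟶ N') (i : Fin 3) :
    gc e (V.l i) ∘ₗ act N i = act N' i ∘ₗ gc e V.c := by
  have h := e.naturality ((Paths.of V).map (arr i))
  exact congrArg ModuleCat.Hom.hom h

lemma outc_comp {S : V → Bool} {N N' : QRep k V} (g : M k S ⟶ N) (e : N ⟶ N') (v : V) :
    outc (g ≫ e) v = gc e v ∘ₗ outc g v := rfl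

/-- components of an epimorphism are surjective -/
lemma epi_surj {N N' : QRep k V} (e : N ⟶ N') [he : Epi e] (v : V) :
    Function.Surjective (gc e v) := by
  have : Epi (e.app v) := (NatTrans.epi_iff_epi_app e).1 he v
  exact (ModuleCat.epi_iff_surjective _).1 this

instance projective_all : Projective (M k all) where
  factors := by
    intro N' N f e he
    obtain ⟨n, hn⟩ := epi_surj e V.c (outc f V.c (one all V.c))
    let g : M k all ⟶ N' := mkOut (fun v => match v with
      | V.c => toVec n
      | V.l i => toVec (act N' i n)) (by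
        intro i
        apply lin_ext
        simp only [LinearMap.comp_apply, toVec_apply, cut_apply, map_smul]
        rfl)
    refine ⟨g, ?_⟩
    apply out_ext
    intro v
    rw [outc_comp]
    apply lin_ext
    rw [LinearMap.comp_apply]
    cases v with
    | c =>
      change gc e V.c ((1 : k) • n) = _
      rw [one_smul, hn]
    | l i =>
      change gc e (V.l i) ((1 : k) • act N' i n) = _
      rw [one_smul]
      have h1 := LinearMap.congr_fun (gc_nat e i) n
      have h2 := LinearMap.congr_fun (outc_nat f i) (one all V.c)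
      rw [LinearMap.comp_apply, LinearMap.comp_apply] at h1 h2
      rw [h1, hn, ← h2]
      rfl

instance projective_sl (L : Fin 3 → Bool) : Projective (M k (sl L)) where
  factors := by
    intro N' N f e he
    choose n hn using fun i => epi_surj e (V.l i) (outc f (V.l i) (one (sl L) (V.l i)))
    let g : M k (sl L) ⟶ N' := mkOut (fun v => match v with
      | V.c => 0
      | V.l i => toVec (n i)) (by
        intro i
        apply lin_ext
        rw [LinearMap.comp_apply, LinearMap.comp_apply]
        have h0 : one (k := k) (sl L) V.c = 0 := by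
          apply Subtype.ext
          change (if sl L V.c = true then (1 : k) else 0) = 0
          rw [if_neg]
          simp [sl]
        rw [h0, map_zero, map_zero, map_zero, map_zero])
    refine ⟨g, ?_⟩
    apply out_ext
    intro v
    rw [outc_comp]
    apply lin_ext
    rw [LinearMap.comp_apply]
    cases v with
    | c =>
      have h0 : one (k := k) (sl L) V.c = 0 := by
        apply Subtype.ext
        change (if sl L V.c = true then (1 : k) else 0) = 0
        rw [if_neg]
        simp [sl]
      rw [h0, map_zero, map_zero, map_zero]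
    | l i =>
      change gc e (V.l i) ((one (k := k) (sl L) (V.l i)).1 • n i) = _
      rw [map_smul, hn, ← map_smul]
      congr 1
      exact (eq_smul_one _).symm

lemma compat1 (L : Fin 3 → Bool) : Compat (sl L) all := by
  intro h; simp [sl] at h

lemma compat2 (L : Fin 3 → Bool) : Compat all (qs L) := by
  intro _ i _; rfl

/-- The short complex `0 → M(L) → M(all) → M(complement of L) → 0`. -/
def sc (k : Type) [Field k] (L : Fin 3 → Bool) : ShortComplex (QRep k V) where
  X₁ := M k (sl L)
  X₂ := M k all
  X₃ := M k (qs L)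
  f := can (compat1 L)
  g := can (compat2 L)
  zero := by
    apply hom_ext
    intro v
    rw [coef_comp, coef_can, coef_can, coef_zero]
    cases v with
    | c => simp [sl]
    | l i => cases h : L i <;> simp [sl, qs, h]

lemma inc_comp {S T : V → Bool} {N : QRep k V} (g : N ⟶ M k S) (h : M k S ⟶ M k T) (v : V) :
    inc (g ≫ h) v = cmp h v ∘ₗ inc g v := rfl

lemma cmp_can {S T : V → Bool} (h : Compat S T) (v : V) : cmp (can (k := k) h) v = cut S T v v :=
  rfl

lemma key_zero {L : Fin 3 → Bool} {N : QRep k V} (h : N ⟶ M k all)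
    (h0 : h ≫ can (k := k) (compat2 L) = 0) (v : V) (hv : sl L v = false) (x : N.obj v) :
    (inc h v x).1 = 0 := by
  have e1 : inc (h ≫ can (k := k) (compat2 L)) v = 0 := by rw [h0]; rfl
  rw [inc_comp, cmp_can] at e1
  have e2 := congrArg Subtype.val (LinearMap.congr_fun e1 x)
  rw [LinearMap.comp_apply, cut_apply] at e2
  have hq : qs L v = true := by
    cases v with
    | c => rfl
    | l i =>
      have : L i = false := hv
      simp [qs, this]
  rw [if_pos hq] at e2
  exact e2

/-- lifting through the kernel -/
def kerLift {L : Fin 3 → Bool} {N : QRep k V} (h : N ⟶ M k all)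
    (h0 : h ≫ can (k := k) (compat2 L) = 0) : N ⟶ M k (sl L) :=
  mkIn (fun v => LinearMap.codRestrict (Sub k (sl L) v) ((Sub k all v).subtype ∘ₗ inc h v)
    (fun x hv => key_zero h h0 v hv x)) (by
    intro i
    refine LinearMap.ext fun x => Subtype.ext ?_
    have h1 := congrArg Subtype.val (LinearMap.congr_fun (inc_nat h i) x)
    rw [LinearMap.comp_apply, LinearMap.comp_apply, cut_apply] at h1
    rw [LinearMap.comp_apply, LinearMap.comp_apply, cut_apply]
    change (inc h (V.l i) (act N i x)).1 = if sl L (V.l i) = true then (inc h V.c x).1 else 0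
    rw [h1]
    have h2 := key_zero h h0 V.c rfl x
    rw [h2]
    simp)

lemma kerLift_fac {L : Fin 3 → Bool} {N : QRep k V} (h : N ⟶ M k all)
    (h0 : h ≫ can (k := k) (compat2 L) = 0) : kerLift h h0 ≫ can (compat1 L) = h := by
  apply in_ext
  intro v
  rw [inc_comp, cmp_can]
  refine LinearMap.ext fun x => Subtype.ext ?_
  rw [LinearMap.comp_apply, cut_apply]
  rfl

instance mono_can1 (L : Fin 3 → Bool) : Mono (can (k := k) (compat1 L)) := by
  rw [NatTrans.mono_iff_mono_app]
  intro v
  rw [ModuleCat.mono_iff_injective]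
  intro x y hxy
  change Sub k (sl L) v at x
  change Sub k (sl L) v at y
  apply Subtype.ext
  exact congrArg (fun z : Sub k all v => z.1) hxy

instance epi_can2 (L : Fin 3 → Bool) : Epi (can (k := k) (compat2 L)) := by
  rw [NatTrans.epi_iff_epi_app]
  intro v
  rw [ModuleCat.epi_iff_surjective]
  intro y
  change Sub k (qs L) v at y
  refine ⟨(⟨y.1, fun h => by simp [all] at h⟩ : Sub k all v), ?_⟩
  apply Subtype.ext
  change (if qs L v = true then y.1 else 0) = y.1
  by_cases h : qs L v = true
  · rw [if_pos h]
  · rw [if_neg h, y.2 (by simpa using h)]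

lemma shortExact (L : Fin 3 → Bool) : (sc k L).ShortExact where
  exact := by
    apply ShortComplex.exact_of_f_is_kernel
    refine KernelFork.IsLimit.ofι _ _ (fun h h0 => kerLift h h0) (fun h h0 => kerLift_fac h h0) ?_
    intro W' g' eq' m hm
    have : Mono (sc k L).f := mono_can1 L
    exact (cancel_mono (sc k L).f).1 (hm.trans (kerLift_fac g' eq').symm)
  mono_f := mono_can1 L
  epi_g := epi_can2 L

/-- Vanishing criterion. -/
lemma ext_zero_of_extend (L : Fin 3 → Bool) (N : QRep k V)
    (h : ∀ f : M k (sl L) ⟶ N, ∃ g : M k all ⟶ N, f = can (compat1 L) ≫ g)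
    (e : Ext (M k (qs L)) N 1) : e = 0 := by
  have hS := shortExact (k := k) L
  obtain ⟨x₁, hx⟩ := Ext.contravariant_sequence_exact₃ hS N e
    (Ext.eq_zero_of_projective (P := M k all) _) (n₀ := 0) rfl
  obtain ⟨f, rfl⟩ := Ext.mk₀_bijective _ _ |>.2 x₁
  obtain ⟨g, hg⟩ := h f
  have e0 : (Ext.mk₀ (sc k L).f).comp (Ext.mk₀ g) (zero_add 0) = Ext.mk₀ ((sc k L).f ≫ g) :=
    Ext.mk₀_comp_mk₀ (sc k L).f g
  have e1 : Ext.mk₀ f = (Ext.mk₀ (sc k L).f).comp (Ext.mk₀ g) (zero_add 0) :=
    (congrArg Ext.mk₀ hg).trans e0.symm
  rw [← hx, e1]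
  have h1 : hS.extClass.comp (Ext.mk₀ (sc k L).f) (add_zero 1) = 0 := hS.extClass_comp
  have h2 : (hS.extClass.comp (Ext.mk₀ (sc k L).f) (add_zero 1)).comp (Ext.mk₀ g) (add_zero 1) =
      hS.extClass.comp ((Ext.mk₀ (sc k L).f).comp (Ext.mk₀ g) (zero_add 0)) (add_zero 1) :=
    Ext.comp_assoc _ _ _ _ _ rfl
  refine h2.symm.trans ?_
  rw [h1, Ext.zero_comp]
  rfl

/-- Morphisms out of a thin representation supported on leaves that extend to the full one. -/
lemma extend_of (L : Fin 3 → Bool) (T : V → Bool)
    (hc : ∀ i, L i = true → T (V.l i) = true → T V.c = true)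
    (hu : ∀ i j, L i = true → T (V.l i) = true → L j = true → T (V.l j) = true → i = j)
    (f : M k (sl L) ⟶ M k T) : ∃ g : M k all ⟶ M k T, f = can (compat1 L) ≫ g := by
  by_cases hex : ∃ i, L i = true ∧ T (V.l i) = true
  · obtain ⟨i, hLi, hTi⟩ := hex
    let a := coef f (V.l i)
    have hcomp : Compat all T → True := fun _ => trivial
    let g : M k all ⟶ M k T := mk (fun v => a • cut all T v v) (by
      intro j
      refine LinearMap.ext fun x => Subtype.ext ?_
      simp only [LinearMap.comp_apply, LinearMap.smul_apply, map_smul]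
      change a * (if T (V.l j) = true then (if all (V.l j) = true then x.1 else 0) else 0) =
        a * (if T (V.l j) = true then (if T V.c = true then x.1 else 0) else 0)
      rw [if_pos (show all (V.l j) = true from rfl), if_pos (hc i hLi hTi)])
    refine ⟨g, ?_⟩
    apply hom_ext
    intro v
    rw [coef_comp, coef_can]
    cases v with
    | c => rw [coef_zero_left f (show sl L V.c = false from rfl)]; simp [sl]
    | l j =>
      by_cases hLj : L j = true
      · have e1 : coef g (V.l j) = a * (if T (V.l j) = true then 1 else 0) := by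
          change (a • cut all T (V.l j) (V.l j) (one all (V.l j))).1 = _
          rfl
        rw [e1]
        by_cases hTj : T (V.l j) = true
        · have := hu i j hLi hTi hLj hTj
          subst this
          simp [sl, all, hLj, hTj, a]
        · rw [coef_zero_right f (by simpa using hTj)]
          simp [hTj]
      · rw [coef_zero_left f (show sl L (V.l j) = false by simpa [sl] using hLj)]
        simp [sl, hLj]
  · refine ⟨0, ?_⟩
    apply hom_ext
    intro v
    rw [coef_comp, coef_zero, mul_zero]
    cases v with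
    | c => exact coef_zero_left f rfl
    | l j =>
      by_cases hLj : L j = true
      · apply coef_zero_right
        by_contra hT
        exact hex ⟨j, hLj, by simpa using hT⟩
      · exact coef_zero_left f (by simpa [sl] using hLj)

/-- Vanishing of `Ext^1` between thin representations. -/
lemma ext_thin_zero (L : Fin 3 → Bool) (T : V → Bool)
    (hc : ∀ i, L i = true → T (V.l i) = true → T V.c = true)
    (hu : ∀ i j, L i = true → T (V.l i) = true → L j = true → T (V.l j) = true → i = j)
    (e : Ext (M k (qs L)) (M k T) 1) : e = 0 :=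
  ext_zero_of_extend L _ (extend_of L T hc hu) e

lemma ext_leaf_zero (L : Fin 3 → Bool) (N : QRep k V) (e : Ext (M k (sl L)) N 1) : e = 0 :=
  Ext.eq_zero_of_projective e

end Q1.HomExt.D4
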