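import Mathlib
import Pool.Agent.Q1.HomExt.D4Ext

/-!
# The exceptional collection whose Hom-Ext quiver is a commutative square
-/

namespace Q1.HomExt

open CategoryTheory Abelian Limits

/-- Two factorizations of a path are comparable. -/
lemma path_factor {ι : Type} [Quiver.{0} ι] {a b d : ι} (p : Quiver.Path a b)
    (q : Quiver.Path b d) : ∀ {c : ι} (p' : Quiver.Path a c) (q' : Quiver.Path c d),
    p.comp q = p'.comp q' →
      (∃ r : Quiver.Path b c, p' = p.comp r ∧ q = r.comp q') ∨
      (∃ r : Quiver.Path c b, p = p'.comp r ∧ q' = r.comp q) := by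
  induction q with
  | nil =>
    intro c p' q' h
    exact Or.inr ⟨q', h, rfl⟩
  | @cons x y q e ih =>
    intro c p' q' h
    cases q' with
    | nil => exact Or.inl ⟨q.cons e, h.symm, rfl⟩
    | @cons z _ q' e' =>
      rw [Quiver.Path.comp_cons, Quiver.Path.comp_cons] at h
      injection h with h1 h2 h3 h4
      subst h1
      have h3' := eq_of_heq h3
      have h4' := eq_of_heq h4
      subst h4'
      rcases ih p' q' h3' with ⟨r, hr1, hr2⟩ | ⟨r, hr1, hr2⟩
      · exact Or.inl ⟨r, hr1, by rw [Quiver.Path.comp_cons, hr2]⟩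
      · exact Or.inr ⟨r, hr1, by rw [Quiver.Path.comp_cons, hr2]⟩

namespace D4

variable {k : Type} [Field k]

/-- The four members of the collection. -/
inductive I4 : Type
  | s : I4
  | u : I4
  | v : I4
  | t : I4
deriving DecidableEq

/-- The supports: `{3}`, `{c, 2, 3}`, `{c, 1, 3}`, `{c, 3}` (leaves `0, 1, 2` of `Fin 3`). -/
def supp : I4 → V → Bool
  | I4.s => sl ![false, false, true]
  | I4.u => qs ![true, false, false]
  | I4.v => qs ![false, true, false]
  | I4.t => qs ![true, true, false]

/-- The collection. -/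
abbrev X (k : Type) [Field k] (i : I4) : QRep k V := M k (supp i)

/-- The order relation of the square. -/
def le : I4 → I4 → Bool
  | I4.s, _ => true
  | I4.u, I4.u => true
  | I4.u, I4.t => true
  | I4.v, I4.v => true
  | I4.v, I4.t => true
  | I4.t, I4.t => true
  | _, _ => false

/-- the common leaf -/
abbrev w : V := V.l 2

lemma supp_w (i : I4) : supp i w = true := by cases i <;> rfl

lemma compat_of_le {i j : I4} (h : le i j = true) : Compat (supp i) (supp j) := by
  intro hc l hl
  cases i <;> cases j <;> simp [le] at h <;> fin_cases l <;>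
    simp [supp, sl, qs] at hc hl ⊢

lemma coef_eq {i j : I4} (f : X k i ⟶ X k j) (x : V) :
    coef f x = if supp i x = true ∧ supp j x = true then coef f w else 0 := by
  have hw := coef_nat f
  by_cases hS : supp i x = true
  · by_cases hT : supp j x = true
    · rw [if_pos ⟨hS, hT⟩]
      cases x with
      | c =>
        have h2 := hw hS 2
        rw [if_pos (supp_w i), if_pos (supp_w j)] at h2
        exact h2.symm
      | l m =>
        by_cases hc : supp i V.c = true
        · have h2 := hw hc 2
          have h3 := hw hc m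
          rw [if_pos (supp_w i), if_pos (supp_w j)] at h2
          rw [if_pos hS, if_pos hT] at h3
          rw [h3, ← h2]
        · have hi : i = I4.s := by
            cases i
            · rfl
            all_goals exact absurd rfl hc
          subst hi
          have hm : m = 2 := by
            fin_cases m
            · exact absurd hS (by decide)
            · exact absurd hS (by decide)
            · rfl
          subst hm
          rfl
    · rw [if_neg (fun h => hT h.2)]
      exact coef_zero_right f (by simpa using hT)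
  · rw [if_neg (fun h => hS h.1)]
    exact coef_zero_left f (by simpa using hS)

/-- Morphisms are determined by the coefficient at the common leaf. -/
lemma coef_w_inj {i j : I4} (f g : X k i ⟶ X k j) (h : coef f w = coef g w) : f = g := by
  apply hom_ext
  intro x
  rw [coef_eq f, coef_eq g, h]

lemma coef_w_zero {i j : I4} (h : le i j = false) (f : X k i ⟶ X k j) : coef f w = 0 := by
  have hw := coef_nat f
  cases i <;> cases j <;> simp only [le, Bool.true_eq_false] at h
  · -- u, s
    have h2 := hw rfl 2
    rw [if_pos (supp_w _), if_pos (supp_w _), coef_zero_right f (v := V.c) rfl] at h2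
    exact h2
  · -- u, v
    have h2 := hw rfl 2
    have h3 := hw rfl 0
    rw [if_pos (supp_w _), if_pos (supp_w _)] at h2
    rw [if_neg (by decide), if_pos (by decide)] at h3
    exact h2.trans h3.symm
  · -- v, s
    have h2 := hw rfl 2
    rw [if_pos (supp_w _), if_pos (supp_w _), coef_zero_right f (v := V.c) rfl] at h2
    exact h2
  · -- v, u
    have h2 := hw rfl 2
    have h3 := hw rfl 1
    rw [if_pos (supp_w _), if_pos (supp_w _)] at h2
    rw [if_neg (by decide), if_pos (by decide)] at h3
    exact h2.trans h3.symm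
  · -- t, s
    have h2 := hw rfl 2
    rw [if_pos (supp_w _), if_pos (supp_w _), coef_zero_right f (v := V.c) rfl] at h2
    exact h2
  · -- t, u
    have h2 := hw rfl 2
    have h3 := hw rfl 1
    rw [if_pos (supp_w _), if_pos (supp_w _)] at h2
    rw [if_neg (by decide), if_pos (by decide)] at h3
    exact h2.trans h3.symm
  · -- t, v
    have h2 := hw rfl 2
    have h3 := hw rfl 0
    rw [if_pos (supp_w _), if_pos (supp_w _)] at h2
    rw [if_neg (by decide), if_pos (by decide)] at h3
    exact h2.trans h3.symm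

lemma coef_can_w {i j : I4} (h : le i j = true) :
    coef (can (k := k) (compat_of_le h)) w = 1 := by
  rw [coef_can, if_pos ⟨supp_w i, supp_w j⟩]

lemma coef_id_w (i : I4) : coef (𝟙 (X k i)) w = 1 := by
  change (if supp i w = true then (1 : k) else 0) = 1
  rw [if_pos (supp_w i)]

lemma ext_zero (i j : I4) (e : Ext (X k i) (X k j) 1) : e = 0 := by
  cases i with
  | s => exact ext_leaf_zero _ _ e
  | u =>
    refine ext_thin_zero _ _ ?_ ?_ e
    · cases j <;> decide
    · cases j <;> decide
  | v =>
    refine ext_thin_zero _ _ ?_ ?_ e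
    · cases j <;> decide
    · cases j <;> decide
  | t =>
    refine ext_thin_zero _ _ ?_ ?_ e
    · cases j <;> decide
    · cases j <;> decide

lemma indecomposable (i : I4) : Indecomposable (X k i) := by
  constructor
  · intro h
    have h1 : 𝟙 (X k i) = 0 := h.eq_of_src _ _
    have h2 := coef_id_w (k := k) i
    rw [h1, coef_zero] at h2
    exact zero_ne_one h2
  · intro Y Z φ
    let e : X k i ⟶ X k i := φ.hom ≫ (biprod.fst ≫ biprod.inl) ≫ φ.inv
    have he : e ≫ e = e := by simp [e]
    have hc : coef e w * coef e w = coef e w := by rw [← coef_comp, he]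
    have hc' : coef e w = 0 ∨ coef e w = 1 := by
      have : coef e w * (coef e w - 1) = 0 := by linear_combination hc
      rcases mul_eq_zero.1 this with h | h
      · exact Or.inl h
      · exact Or.inr (sub_eq_zero.1 h)
    rcases hc' with h | h
    · left
      have h0 : e = 0 := coef_w_inj _ _ (by rw [h, coef_zero])
      have h1 : (biprod.fst ≫ biprod.inl : Y ⊞ Z ⟶ Y ⊞ Z) = 0 := by
        have : φ.inv ≫ e ≫ φ.hom = (biprod.fst ≫ biprod.inl : Y ⊞ Z ⟶ Y ⊞ Z) := by simp [e]
        rw [← this, h0]; simp
      rw [IsZero.iff_id_eq_zero]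
      have : 𝟙 Y = biprod.inl ≫ (biprod.fst ≫ biprod.inl : Y ⊞ Z ⟶ Y ⊞ Z) ≫ biprod.fst := by simp
      rw [this, h1]; simp
    · right
      have h0 : e = 𝟙 _ := coef_w_inj _ _ (by rw [h, coef_id_w])
      have h1 : (biprod.fst ≫ biprod.inl : Y ⊞ Z ⟶ Y ⊞ Z) = 𝟙 _ := by
        have : φ.inv ≫ e ≫ φ.hom = (biprod.fst ≫ biprod.inl : Y ⊞ Z ⟶ Y ⊞ Z) := by simp [e]
        rw [← this, h0]; simp
      rw [IsZero.iff_id_eq_zero]
      have : 𝟙 Z = biprod.inr ≫ 𝟙 (Y ⊞ Z) ≫ biprod.snd := by simp
      rw [this, ← h1]; simp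

lemma exceptional (i : I4) : IsExceptional (X k i) where
  finDim := finDim _
  indecomposable := indecomposable i
  rigid := ext_zero i i

/-- positions -/
def pos : I4 → ℕ
  | I4.s => 0
  | I4.u => 1
  | I4.v => 2
  | I4.t => 3

lemma collection : IsExceptionalCollection (X k) where
  finite := Finite.of_surjective (fun n : Fin 4 => ![I4.s, I4.u, I4.v, I4.t] n) (by
    rintro (_ | _ | _ | _)
    · exact ⟨0, rfl⟩
    · exact ⟨1, rfl⟩
    · exact ⟨2, rfl⟩
    · exact ⟨3, rfl⟩)
  exceptional := exceptional
  ordering := by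
    refine ⟨pos, ?_, ?_⟩
    · intro i j h
      cases i <;> cases j <;> simp [pos] at h ⊢
    · intro i j h
      have hle : le i j = false := by
        cases i <;> cases j <;> simp [pos] at h <;> rfl
      exact ⟨fun f => coef_w_inj _ _ (by rw [coef_w_zero hle, coef_zero]), ext_zero i j⟩

/-- transport to degree zero -/
noncomputable def toZero {A B : QRep k V} {n : ℕ} (x : Ext A B n) : Ext A B 0 :=
  if h : n = 0 then h ▸ x else 0

lemma toZero_comp {A B C : QRep k V} {n m : ℕ} (x : Ext A B n) (y : Ext B C m) :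
    toZero (x.comp y rfl) = (toZero x).comp (toZero y) (add_zero 0) := by
  cases n with
  | zero =>
    cases m with
    | zero => rfl
    | succ m =>
      have h1 : toZero y = 0 := dif_neg (by omega)
      rw [h1, Ext.comp_zero]
      exact dif_neg (by omega)
  | succ n =>
    have h1 : toZero x = 0 := dif_neg (by omega)
    rw [h1, Ext.zero_comp]
    exact dif_neg (by omega)

/-- The coefficient of an element of `Ext^0`. -/
noncomputable def cE {i j : I4} (x : Ext (X k i) (X k j) 0) : k := coef (Ext.homEquiv₀ x) w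

lemma cE_mk₀ {i j : I4} (f : X k i ⟶ X k j) : cE (Ext.mk₀ f) = coef f w := by
  rw [cE]
  congr 1
  exact Ext.homEquiv₀.apply_symm_apply f

lemma exists_mk₀ {i j : I4} (x : Ext (X k i) (X k j) 0) : ∃ f, Ext.mk₀ f = x :=
  (Ext.mk₀_bijective _ _).2 x

lemma cE_comp {i j l : I4} (x : Ext (X k i) (X k j) 0) (y : Ext (X k j) (X k l) 0) :
    cE (x.comp y (add_zero 0)) = cE x * cE y := by
  obtain ⟨f, rfl⟩ := exists_mk₀ x
  obtain ⟨g, rfl⟩ := exists_mk₀ y
  rw [Ext.mk₀_comp_mk₀, cE_mk₀, cE_mk₀, cE_mk₀, coef_comp]

lemma cE_inj {i j : I4} {x y : Ext (X k i) (X k j) 0} (h : cE x = cE y) : x = y := by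
  obtain ⟨f, rfl⟩ := exists_mk₀ x
  obtain ⟨g, rfl⟩ := exists_mk₀ y
  rw [cE_mk₀, cE_mk₀] at h
  rw [coef_w_inj f g h]

lemma cE_zero {i j : I4} : cE (0 : Ext (X k i) (X k j) 0) = 0 := by
  rw [← Ext.mk₀_zero, cE_mk₀]
  rfl

lemma cE_add {i j : I4} (x y : Ext (X k i) (X k j) 0) : cE (x + y) = cE x + cE y := by
  obtain ⟨f, rfl⟩ := exists_mk₀ x
  obtain ⟨g, rfl⟩ := exists_mk₀ y
  rw [← Ext.mk₀_add, cE_mk₀, cE_mk₀, cE_mk₀]
  rfl

lemma cE_smul {i j : I4} (c : k) (x : Ext (X k i) (X k j) 0) : cE (c • x) = c * cE x := by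
  obtain ⟨f, rfl⟩ := exists_mk₀ x
  rw [← Ext.mk₀_smul, cE_mk₀, cE_mk₀]
  rfl

/-- `cE` as a linear map. -/
noncomputable def cEL (k : Type) [Field k] (i j : I4) : Ext (X k i) (X k j) 0 →ₗ[k] k where
  toFun := cE
  map_add' := cE_add
  map_smul' := cE_smul

section General

variable [Quiver.{0} I4] (D : ArrowData (X k))

/-- value of a path -/
noncomputable def val {i j : I4} (p : Quiver.Path i j) : k := cE (D.evalPath 0 p)

lemma evalPath_zero {i j : I4} (p : Quiver.Path i j) : D.evalPath 0 p = toZero (D.eval p) := rfl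

lemma val_nil (i : I4) : val D (Quiver.Path.nil : Quiver.Path i i) = 1 := by
  rw [val, evalPath_zero]
  change cE (Ext.mk₀ (𝟙 (X k i))) = 1
  rw [cE_mk₀, coef_id_w]

lemma val_cons {i j l : I4} (p : Quiver.Path i j) (a : j ⟶ l) :
    val D (p.cons a) = val D p * cE (toZero (D.cls a)) := by
  rw [val, evalPath_zero]
  change cE (toZero ((D.eval p).comp (D.cls a) rfl)) = _
  rw [toZero_comp, cE_comp]
  rfl

lemma val_comp {i j l : I4} (p : Quiver.Path i j) (q : Quiver.Path j l) :
    val D (p.comp q) = val D p * val D q := by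
  induction q with
  | nil => rw [Quiver.Path.comp_nil, val_nil, mul_one]
  | cons q a ih => rw [Quiver.Path.comp_cons, val_cons, val_cons, ih, mul_assoc]

lemma val_zero {i j : I4} (h : le i j = false) (p : Quiver.Path i j) : val D p = 0 := by
  rw [val]
  obtain ⟨f, hf⟩ := exists_mk₀ (D.evalPath 0 p)
  rw [← hf, cE_mk₀, coef_w_zero h]

lemma cE_evalIn {i j : I4} (f : Quiver.Path i j →₀ k) :
    cE (D.evalIn 0 i j f) = Finsupp.linearCombination k (val D) f := by
  change cEL k i j (Finsupp.linearCombination k (fun p => D.evalPath 0 p) f) = _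
  rw [Finsupp.linearCombination_apply, Finsupp.linearCombination_apply, Finsupp.sum, Finsupp.sum,
    map_sum]
  refine Finset.sum_congr rfl fun p _ => ?_
  rw [map_smul]
  rfl

lemma mem_rel {i j : I4} (f : Quiver.Path i j →₀ k) :
    f ∈ D.rel i j ↔ Finsupp.linearCombination k (val D) f = 0 := by
  rw [ArrowData.rel, Submodule.mem_inf, LinearMap.mem_ker, LinearMap.mem_ker, ← cE_evalIn]
  constructor
  · rintro ⟨h, -⟩
    rw [h, cE_zero]
  · intro h
    exact ⟨cE_inj (by rw [h, cE_zero]), ext_zero _ _ _⟩

lemma exists_val (hD : D.IsHomExtQuiver) {i j : I4} (h : le i j = true) :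
    ∃ p : Quiver.Path i j, val D p ≠ 0 := by
  obtain ⟨f, hf⟩ := hD.surjective 0 (by norm_num) i j (Ext.mk₀ (can (compat_of_le h)))
  have h1 : Finsupp.linearCombination k (val D) f = 1 := by
    rw [← cE_evalIn, hf, cE_mk₀, coef_can_w h]
  by_contra hcon
  push Not at hcon
  have h2 : Finsupp.linearCombination k (val D) f = 0 := by
    rw [Finsupp.linearCombination_apply]
    exact Finset.sum_eq_zero fun p _ => by simp only [hcon, smul_zero]
  rw [h2] at h1
  exact zero_ne_one h1

lemma supp_of_monomial (hM : D.IsMonomial) {i j : I4} (f : Quiver.Path i j →₀ k)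
    (hf : f ∈ D.rel i j) (p : Quiver.Path i j) (hp : f p ≠ 0) : val D p = 0 := by
  obtain ⟨S, -, hS⟩ := hM
  have hspan := hS i j
  rw [hspan] at hf
  have hgen : ∀ g ∈ {f : Quiver.Path i j →₀ k | ∃ (a b : I4) (p : Quiver.Path i a)
      (s : Quiver.Path a b) (q : Quiver.Path b j), s ∈ S a b ∧
        f = Finsupp.single (p.comp (s.comp q)) 1},
      ∀ p : Quiver.Path i j, g p ≠ 0 → val D p = 0 := by
    rintro g hg p hp
    have hg' := hg
    obtain ⟨a, b, p', s, q, hs, rfl⟩ := hg
    have hmem : (Finsupp.single (p'.comp (s.comp q)) 1 : Quiver.Path i j →₀ k) ∈ D.rel i j := by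
      rw [hspan]
      exact Submodule.subset_span hg'
    rw [mem_rel, Finsupp.linearCombination_single, one_smul] at hmem
    rw [Finsupp.single_apply_ne_zero] at hp
    rw [hp.1, hmem]
  rw [ArrowData.pathIdeal] at hf
  have hind : ∀ f ∈ Submodule.span k {f : Quiver.Path i j →₀ k | ∃ (a b : I4)
      (p : Quiver.Path i a) (s : Quiver.Path a b) (q : Quiver.Path b j), s ∈ S a b ∧
        f = Finsupp.single (p.comp (s.comp q)) 1},
      ∀ p : Quiver.Path i j, f p ≠ 0 → val D p = 0 := by
    intro f hf
    refine Submodule.span_induction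
      (p := fun (f : Quiver.Path i j →₀ k) _ => ∀ p : Quiver.Path i j, f p ≠ 0 → val D p = 0)
      ?_ ?_ ?_ ?_ hf
    · exact hgen
    · intro p hp; exact absurd rfl hp
    · intro x y _ _ hx hy p hp
      rw [Finsupp.add_apply] at hp
      by_cases h1 : x p = 0
      · rw [h1, zero_add] at hp
        exact hy p hp
      · exact hx p h1
    · intro a x _ hx p hp
      rw [Finsupp.smul_apply] at hp
      exact hx p (fun h => hp (by rw [h, smul_zero]))
  exact hind f hf p hp

/-- No Hom-Ext quiver of the collection is monomial. -/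
theorem not_monomial (hD : D.IsHomExtQuiver) : ¬ D.IsMonomial := by
  intro hM
  obtain ⟨p1, hp1⟩ := exists_val D hD (i := I4.s) (j := I4.u) rfl
  obtain ⟨p2, hp2⟩ := exists_val D hD (i := I4.u) (j := I4.t) rfl
  obtain ⟨q1, hq1⟩ := exists_val D hD (i := I4.s) (j := I4.v) rfl
  obtain ⟨q2, hq2⟩ := exists_val D hD (i := I4.v) (j := I4.t) rfl
  have hP : val D (p1.comp p2) ≠ 0 := by rw [val_comp]; exact mul_ne_zero hp1 hp2
  have hQ : val D (q1.comp q2) ≠ 0 := by rw [val_comp]; exact mul_ne_zero hq1 hq2
  by_cases heq : p1.comp p2 = q1.comp q2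
  · rcases path_factor p1 p2 q1 q2 heq with ⟨r, hr, -⟩ | ⟨r, hr, -⟩
    · apply hq1
      rw [hr, val_comp, val_zero D (by rfl) r, mul_zero]
    · apply hp1
      rw [hr, val_comp, val_zero D (by rfl) r, mul_zero]
  · let f : Quiver.Path I4.s I4.t →₀ k :=
      Finsupp.single (p1.comp p2) (val D (q1.comp q2)) -
        Finsupp.single (q1.comp q2) (val D (p1.comp p2))
    have hf : f ∈ D.rel I4.s I4.t := by
      rw [mem_rel]
      simp only [f, map_sub, Finsupp.linearCombination_single, smul_eq_mul]
      ring
    have hfp : f (p1.comp p2) ≠ 0 := by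
      simp only [f, Finsupp.sub_apply]
      rw [Finsupp.single_eq_same, Finsupp.single_eq_of_ne heq, sub_zero]
      exact hQ
    exact hP (supp_of_monomial D hM f hf _ hfp)

end General

/-- The arrows of the square. -/
inductive Sq : I4 → I4 → Type
  | su : Sq I4.s I4.u
  | sv : Sq I4.s I4.v
  | ut : Sq I4.u I4.t
  | vt : Sq I4.v I4.t

/-- The square quiver. -/
@[reducible] def sqQuiver : Quiver.{0} I4 := ⟨Sq⟩

section Existence

attribute [local instance] sqQuiver

lemma le_arrow {i j : I4} (a : i ⟶ j) : le i j = true := by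
  change Sq i j at a
  cases a <;> rfl

/-- The arrows as canonical morphisms. -/
noncomputable def D0 (k : Type) [Field k] : ArrowData (X k) where
  deg _ := 0
  deg_le _ := Nat.zero_le _
  cls a := Ext.mk₀ (can (compat_of_le (le_arrow a)))

lemma val_one {i j : I4} (p : Quiver.Path i j) : val (D0 k) p = 1 := by
  induction p with
  | nil => exact val_nil _ _
  | cons p a ih =>
    rw [val_cons, ih, one_mul]
    change cE (Ext.mk₀ (can (compat_of_le (le_arrow a)))) = 1
    rw [cE_mk₀, coef_can_w (le_arrow a)]

/-- rank of a vertex -/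
def rk : I4 → ℕ
  | I4.s => 0
  | I4.u => 1
  | I4.v => 1
  | I4.t => 2

lemma length_path {i j : I4} (p : Quiver.Path i j) : rk i + p.length = rk j := by
  induction p with
  | nil => rfl
  | cons p a ih =>
    rw [Quiver.Path.length_cons, ← add_assoc, ih]
    change Sq _ _ at a
    cases a <;> rfl

lemma path_unique {i j : I4} (p q : Quiver.Path i j) (hp : p.length ≤ 1) : p = q := by
  have h1 := length_path p
  have h2 := length_path q
  have h3 : q.length = p.length := by omega
  cases p with
  | nil =>
    cases q with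
    | nil => rfl
    | cons q b => rw [Quiver.Path.length_cons] at h3; simp at h3
  | cons p a =>
    rw [Quiver.Path.length_cons] at hp h3
    cases q with
    | nil => simp at h3
    | cons q b =>
      rw [Quiver.Path.length_cons] at h3
      cases p with
      | nil =>
        cases q with
        | nil =>
          congr 1
          change Sq _ _ at a
          change Sq _ _ at b
          cases a <;> cases b <;> rfl
        | cons q c => rw [Quiver.Path.length_cons] at h3; simp at h3
      | cons p c => rw [Quiver.Path.length_cons] at hp; omega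

/-- the arrow as an element of the hom type -/
def ar {i j : I4} (a : Sq i j) : i ⟶ j := a

lemma exists_path {i j : I4} (h : le i j = true) : Nonempty (Quiver.Path i j) := by
  cases i <;> cases j <;> simp only [le, Bool.false_eq_true] at h
  · exact ⟨Quiver.Path.nil⟩
  · exact ⟨(ar Sq.su).toPath⟩
  · exact ⟨(ar Sq.sv).toPath⟩
  · exact ⟨(ar Sq.su).toPath.cons (ar Sq.ut)⟩
  · exact ⟨Quiver.Path.nil⟩
  · exact ⟨(ar Sq.ut).toPath⟩
  · exact ⟨Quiver.Path.nil⟩
  · exact ⟨(ar Sq.vt).toPath⟩
  · exact ⟨Quiver.Path.nil⟩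

theorem isHomExt : (D0 k).IsHomExtQuiver where
  surjective := by
    intro n hn i j e
    interval_cases n
    · cases h : le i j with
      | false =>
        refine ⟨0, ?_⟩
        apply cE_inj
        rw [map_zero, cE_zero]
        obtain ⟨f, rfl⟩ := exists_mk₀ e
        rw [cE_mk₀, coef_w_zero h]
      | true =>
        obtain ⟨p⟩ := exists_path h
        refine ⟨Finsupp.single p (cE e), ?_⟩
        apply cE_inj
        rw [cE_evalIn, Finsupp.linearCombination_single, val_one, smul_eq_mul, mul_one]
    · exact ⟨0, by rw [map_zero, ext_zero i j e]⟩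
  admissible := by
    intro i j f hf p hp
    rw [mem_rel] at hf
    have huniq : ∀ q : Quiver.Path i j, q = p := fun q => (path_unique p q hp).symm
    have hfs : f = Finsupp.single p (f p) := by
      ext q
      rw [huniq q, Finsupp.single_eq_same]
    rw [hfs, Finsupp.linearCombination_single, val_one, smul_eq_mul, mul_one] at hf
    exact hf

end Existence

end D4

end Q1.HomExt
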